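import Mathlib
import Pool.Agent.H592.TR.Stm

/-!
# TR9: small cells fill an open set (dimension three, three open sets)

Adapted from `Pool/Agent/H120/TD/S9.lean`.
-/

set_option autoImplicit false

open MeasureTheory Filter Topology

namespace Pool.Agent.H603.TR

open Pool.Agent.H592.TR (cell)

/-- the half-open cell -/
def hc (n : ℕ) (z : Fin 3 → ℕ) : Set (Fin 3 → ℝ) :=
  Set.pi Set.univ fun i => Set.Ioc ((z i : ℝ) / n) (((z i : ℝ) + 1) / n)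

theorem hc_sub (n : ℕ) (z : Fin 3 → ℕ) : hc n z ⊆ cell n z := by
  intro t ht i
  have h := ht i (Set.mem_univ i)
  exact ⟨h.1.le, h.2⟩

theorem meas_hc (n : ℕ) (z : Fin 3 → ℕ) : MeasurableSet (hc n z) :=
  MeasurableSet.univ_pi fun _ => measurableSet_Ioc

theorem vol_hc {n : ℕ} (hn : 1 ≤ n) (z : Fin 3 → ℕ) :
    volume (hc n z) = ENNReal.ofReal (1 / (n : ℝ) ^ 3) := by
  have hn0 : (0 : ℝ) < n := by exact_mod_cast hn
  unfold hc
  rw [Real.volume_pi_Ioc]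
  have h1 : ∀ i : Fin 3, ENNReal.ofReal (((z i : ℝ) + 1) / n - (z i : ℝ) / n) =
      ENNReal.ofReal (1 / n) := by
    intro i
    congr 1
    field_simp
    ring
  rw [Finset.prod_congr rfl fun i _ => h1 i, Finset.prod_const, Finset.card_univ, Fintype.card_fin,
    ← ENNReal.ofReal_pow (by positivity)]
  congr 1
  rw [div_pow, one_pow]

/-- only finitely many cells are in a bounded set -/
theorem fin_cells {A B C : Set (Fin 3 → ℝ)} (hA : Bornology.IsBounded A)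
    (hB : Bornology.IsBounded B) (hC : Bornology.IsBounded C) {n : ℕ} (hn : 1 ≤ n) :
    {z : Fin 3 → ℕ | cell n z ⊆ A ∨ cell n z ⊆ B ∨ cell n z ⊆ C}.Finite := by
  have hn0 : (0 : ℝ) < n := by exact_mod_cast hn
  obtain ⟨R, hR⟩ := ((hA.union hB).union hC).exists_norm_le
  refine Set.Finite.subset
    (Fintype.piFinset (fun _ : Fin 3 => Finset.range (⌊R * n⌋₊ + 1))).finite_toSet ?_
  intro z hz
  have hmem : (fun i => (z i : ℝ) / n) ∈ cell n z := by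
    intro i
    refine ⟨le_rfl, ?_⟩
    show (z i : ℝ) / n ≤ ((z i : ℝ) + 1) / n
    exact div_le_div_of_nonneg_right (by linarith) hn0.le
  have hmem2 : (fun i => (z i : ℝ) / n) ∈ A ∪ B ∪ C := by
    rcases hz with h | h | h
    · exact Or.inl (Or.inl (h hmem))
    · exact Or.inl (Or.inr (h hmem))
    · exact Or.inr (h hmem)
  have h1 := hR _ hmem2
  rw [Finset.mem_coe, Fintype.mem_piFinset]
  intro i
  rw [Finset.mem_range, Nat.lt_succ_iff]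
  apply Nat.le_floor
  have h2 : ‖(z i : ℝ) / n‖ ≤ R := (norm_le_pi_norm (fun i => (z i : ℝ) / n) i).trans h1
  rw [Real.norm_of_nonneg (by positivity), div_le_iff₀ hn0] at h2
  exact h2

/-- points of an open set are in small cells contained in it -/
theorem ev_cell {A : Set (Fin 3 → ℝ)} (hA : IsOpen A) {t : Fin 3 → ℝ} (ht : t ∈ A)
    (hpos : ∀ i, 0 < t i) :
    ∀ᶠ m : ℕ in atTop, ∃ z : Fin 3 → ℕ, cell (2 ^ m) z ⊆ A ∧ t ∈ hc (2 ^ m) z := by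
  obtain ⟨ε, hε, hball⟩ := Metric.isOpen_iff.1 hA t ht
  have h1 : ∀ᶠ m : ℕ in atTop, ((1 : ℝ) / 2) ^ m < ε :=
    (tendsto_pow_atTop_nhds_zero_of_lt_one (by norm_num) (by norm_num)).eventually_lt_const hε
  refine h1.mono fun m hm => ?_
  have hn0 : (0 : ℝ) < ((2 ^ m : ℕ) : ℝ) := by positivity
  have hz : ∀ i, ((⌈((2 ^ m : ℕ) : ℝ) * t i⌉₊ - 1 : ℕ) : ℝ) < ((2 ^ m : ℕ) : ℝ) * t i ∧
      ((2 ^ m : ℕ) : ℝ) * t i ≤ ((⌈((2 ^ m : ℕ) : ℝ) * t i⌉₊ - 1 : ℕ) : ℝ) + 1 := by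
    intro i
    have h2 : 0 < ((2 ^ m : ℕ) : ℝ) * t i := mul_pos hn0 (hpos i)
    have h3 : 0 < ⌈((2 ^ m : ℕ) : ℝ) * t i⌉₊ := Nat.ceil_pos.2 h2
    have h4 : ((⌈((2 ^ m : ℕ) : ℝ) * t i⌉₊ - 1 : ℕ) : ℝ) + 1 = (⌈((2 ^ m : ℕ) : ℝ) * t i⌉₊ : ℝ) := by
      rw [Nat.cast_sub h3]
      push_cast
      ring
    have h5 := Nat.ceil_lt_add_one h2.le
    have h6 := Nat.le_ceil (((2 ^ m : ℕ) : ℝ) * t i)
    constructor
    · linarith
    · rw [h4]; exact h6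
  have hmem : t ∈ hc (2 ^ m) (fun i => ⌈((2 ^ m : ℕ) : ℝ) * t i⌉₊ - 1) := by
    intro i _
    obtain ⟨h2, h3⟩ := hz i
    constructor
    · show ((⌈((2 ^ m : ℕ) : ℝ) * t i⌉₊ - 1 : ℕ) : ℝ) / ((2 ^ m : ℕ) : ℝ) < t i
      rw [div_lt_iff₀ hn0, mul_comm (t i)]
      exact h2
    · show t i ≤ (((⌈((2 ^ m : ℕ) : ℝ) * t i⌉₊ - 1 : ℕ) : ℝ) + 1) / ((2 ^ m : ℕ) : ℝ)
      rw [le_div_iff₀ hn0, mul_comm (t i)]
      exact h3
  refine ⟨_, ?_, hmem⟩
  intro s hs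
  apply hball
  rw [Metric.mem_ball, dist_pi_lt_iff hε]
  intro i
  obtain ⟨h2, h3⟩ := hs i
  obtain ⟨h4, h5⟩ := hc_sub _ _ hmem i
  have h6 : ∀ a : ℝ, (a + 1) / ((2 ^ m : ℕ) : ℝ) = a / ((2 ^ m : ℕ) : ℝ) + (1 / 2) ^ m := by
    intro a
    rw [add_div, div_pow, one_pow]
    push_cast
    rfl
  rw [h6] at h3 h5
  rw [Real.dist_eq, abs_lt]
  constructor <;> linarith

theorem t9 : Pool.Agent.H592.TR.T9 := by
  intro A B C hA hB hC hAb hBb hCb hpos v hv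
  have hfin : ∀ m : ℕ,
      {z : Fin 3 → ℕ | cell (2 ^ m) z ⊆ A ∨ cell (2 ^ m) z ⊆ B ∨ cell (2 ^ m) z ⊆ C}.Finite :=
    fun m => fin_cells hAb hBb hCb Nat.one_le_two_pow
  obtain ⟨K, hK⟩ : ∃ K : ℕ → Finset (Fin 3 → ℕ), ∀ m z, z ∈ K m ↔
      (cell (2 ^ m) z ⊆ A ∨ cell (2 ^ m) z ⊆ B ∨ cell (2 ^ m) z ⊆ C) :=
    ⟨fun m => (hfin m).toFinset, fun m z => by rw [Set.Finite.mem_toFinset]; exact Iff.rfl⟩
  obtain ⟨U, hU⟩ : ∃ U : ℕ → Set (Fin 3 → ℝ), ∀ m, U m = ⋃ z ∈ K m, hc (2 ^ m) z :=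
    ⟨_, fun _ => rfl⟩
  have hUsub : ∀ m, U m ⊆ A ∪ B ∪ C := by
    intro m t ht
    rw [hU, Set.mem_iUnion₂] at ht
    obtain ⟨z, hz, htz⟩ := ht
    rcases (hK m z).1 hz with h | h | h
    · exact Or.inl (Or.inl (h (hc_sub _ _ htz)))
    · exact Or.inl (Or.inr (h (hc_sub _ _ htz)))
    · exact Or.inr (h (hc_sub _ _ htz))
  have hUm : ∀ m, MeasurableSet (U m) := by
    intro m
    rw [hU]
    exact Finset.measurableSet_biUnion _ fun z _ => meas_hc _ z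
  have hopen : IsOpen (A ∪ B ∪ C) := (hA.union hB).union hC
  have hfinm : volume (A ∪ B ∪ C) ≠ ⊤ := (((hAb.union hBb).union hCb).measure_lt_top).ne
  have hlim : Tendsto (fun m => volume (U m)) atTop (𝓝 (volume (A ∪ B ∪ C))) := by
    refine tendsto_measure_of_tendsto_indicator atTop hUm hopen.measurableSet hfinm
      (Eventually.of_forall hUsub) ?_
    intro t
    by_cases ht : t ∈ A ∪ B ∪ C
    · have hp := hpos t ht
      have h1 : ∀ᶠ m : ℕ in atTop, ∃ z : Fin 3 → ℕ,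
          (cell (2 ^ m) z ⊆ A ∨ cell (2 ^ m) z ⊆ B ∨ cell (2 ^ m) z ⊆ C) ∧
            t ∈ hc (2 ^ m) z := by
        rcases ht with (h | h) | h
        · exact (ev_cell hA h hp).mono fun m ⟨z, h2, h3⟩ => ⟨z, Or.inl h2, h3⟩
        · exact (ev_cell hB h hp).mono fun m ⟨z, h2, h3⟩ => ⟨z, Or.inr (Or.inl h2), h3⟩
        · exact (ev_cell hC h hp).mono fun m ⟨z, h2, h3⟩ => ⟨z, Or.inr (Or.inr h2), h3⟩
      refine h1.mono fun m ⟨z, h2, h3⟩ => ?_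
      refine iff_of_true ?_ ht
      rw [hU, Set.mem_iUnion₂]
      exact ⟨z, (hK m z).2 h2, h3⟩
    · exact Eventually.of_forall fun m => iff_of_false (fun h => ht (hUsub m h)) ht
  have hlim2 : Tendsto (fun m => (volume (U m)).toReal) atTop (𝓝 (volume (A ∪ B ∪ C)).toReal) :=
    (ENNReal.tendsto_toReal hfinm).comp hlim
  obtain ⟨m, hm⟩ := (hlim2.eventually_const_lt hv).exists
  refine ⟨2 ^ m, K m, Nat.one_le_two_pow, fun z hz => (hK m z).1 hz, hm.trans_le ?_⟩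
  refine ENNReal.toReal_le_of_le_ofReal (by positivity) ?_
  rw [hU]
  refine (measure_biUnion_finset_le _ _).trans ?_
  rw [Finset.sum_congr rfl fun z _ => vol_hc Nat.one_le_two_pow z, Finset.sum_const, nsmul_eq_mul,
    ← ENNReal.ofReal_natCast, ← ENNReal.ofReal_mul (Nat.cast_nonneg _), mul_one_div]

end Pool.Agent.H603.TR
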